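import Pool.Agent.U479.VB.Final

set_option autoImplicit false

/-!
# Fujita's conjectures for weighted complete intersections with arbitrary weights

Let `X = V(f_1, …, f_c)` be a complete intersection of dimension `n`, of degrees `d_1, …, d_c`, in a
weighted projective space `P(a_0, …, a_{n+c})`.  The weights are arbitrary, so that `P(a)` may have
singularities of any dimension.  Suppose that every weight `a_i > 1` has its own equation `f_{J(i)}`,
such that a point of `P(a)` at which the equations assigned to its nonzero coordinates vanish has a
trivial stabiliser (the weights of its nonzero coordinates have no common divisor).  Then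
`O(1)` is invertible on `X`, `K_X = O(∑ d_j - ∑ a_i)`, and we show that `K_X + A_1 + … + A_m` is globally
generated for `m ≥ n + 1` and very ample for `m ≥ n + 2`, for all `A_l = O(k_l)`, `k_l ≥ 1`.
The codimension is arbitrary, `X` may be singular, intersections with linear cones are allowed,
and the field is arbitrary.

If the weights are pairwise coprime then the condition says that the coordinate points `P_i` with
`a_i > 1` are avoided by different equations.  The starting results `WeightedHypersurfaces` and
`CoprimeCodimensionTwo` are about `c = 1` and about those `X` with pairwise coprime weights, on two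
of whose equations `O(1)` is invertible.

The proof.  A pair of points, or a tangent vector, which is not separated, is a point `y` of `X` with
values in an algebra `B` with `s(y) = C s(x)` for all forms `s` of degree `e`.  Suppose that all nonzero
coordinates of `x` have weights larger than one.  Every monomial of `f_{J(i)}`, `x_i ≠ 0`, which does
not vanish at `x`, gives a relation `c_i a_i = ∑ r_il a_l`.  Let `T` be a minimal set of nonzero
coordinates closed under all these relations.  The equations `f_{J(i)}`, `i ∈ T`, vanish at
the point with the coordinates `x_i`, `i ∈ T`, and zero otherwise, so the weights `a_i`, `i ∈ T`, have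
no common divisor.  For every root `b ∈ T` one can choose one relation for every `i ∈ T`, `i ≠ b`, such
that the relations used as rewriting rules terminate (a potential is constructed).  So all numbers
larger than `∑_{i ∈ T, i ≠ b} (D_i - 1) a_i - a_b`, where `D_i a_i = d_{J(i)}`, belong to the semigroup
generated by the `a_i`, `i ∈ T`; every relation is the difference of two monomials of degree
`e ≥ ∑_{i ∈ T} (D_i - 1) a_i + 1`, and the monomials of degree `e` represent all classes modulo the
relations.  Hence `y_i = t ^ a_i x_i` for `i ∈ T`.  The other coordinates are determined by monomials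
which are linear in them, or by systems of linear equations.
-/

namespace Pool.Agent.Results.MP_e09b14_ag.ArbitraryWeights

open MvPolynomial

variable {V κ F : Type} [Fintype V] [DecidableEq V] [Fintype κ] [Field F]

/-- `X = V(f_j)` is defined by weighted homogeneous equations `f_j` of degrees `d_j ≥ 1` in the
weighted projective space `P(a)` with the coordinates `x_i`, `i ∈ V`, of weights `a_i ≥ 1`; the number
of the coordinates is `n + c + 1`, where `c` is the number of the equations (so that `n = dim X` if `X`
is a complete intersection); and different equations `f_{J(i)}` are assigned to the weights `a_i > 1`,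
such that the weights of the nonzero coordinates of a point have no common divisor, if the
equations assigned to them vanish at the point. -/
structure InSmoothLocus (a : V → ℕ) (d : κ → ℕ) (f : κ → MvPolynomial V F) (n : ℕ) : Prop where
  weight_pos : ∀ i, 1 ≤ a i
  degree_pos : ∀ j, 1 ≤ d j
  homogeneous : ∀ j, IsWeightedHomogeneous a (f j) (d j)
  dimension : n + Fintype.card κ + 1 = Fintype.card V
  avoids : ∃ J : {i // 1 < a i} → κ, Function.Injective J ∧
    ∀ x : V → F, x ≠ 0 → (∀ i : {i // 1 < a i}, x i ≠ 0 → eval x (f (J i)) = 0) →
      ∀ g : ℕ, (∀ i, x i ≠ 0 → g ∣ a i) → g = 1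

/-- The forms of degree `e` have no base point on `X = V(f_j)`.  (Over an algebraically closed field:
`O(e)` is globally generated on `X`.) -/
def Free (a : V → ℕ) (f : κ → MvPolynomial V F) (e : ℕ) : Prop :=
  ∀ v : V → F, v ≠ 0 → (∀ j, eval v (f j) = 0) →
    ∃ s : MvPolynomial V F, IsWeightedHomogeneous a s e ∧ eval v s ≠ 0

/-- The forms of degree `e` have no base point on `X = V(f_j)`, separate points and separate
tangent vectors of `X`.  (Over an algebraically closed field: `O(e)` is very ample on `X`.) -/
structure VeryAmple (a : V → ℕ) (f : κ → MvPolynomial V F) (e : ℕ) : Prop where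
  no_base_points : Free a f e
  points : ∀ v w : V → F, v ≠ 0 → w ≠ 0 → (∀ j, eval v (f j) = 0) → (∀ j, eval w (f j) = 0) →
    (¬ ∃ t : F, t ≠ 0 ∧ ∀ i, w i = t ^ a i * v i) →
      ∃ s : MvPolynomial V F, IsWeightedHomogeneous a s e ∧ eval v s = 0 ∧ eval w s ≠ 0
  tangents : ∀ v u : V → F, v ≠ 0 → (∀ j, eval v (f j) = 0) →
    (∀ j, ∑ i, eval v (pderiv i (f j)) * u i = 0) →
    (¬ ∃ τ : F, ∀ i, u i = τ * (a i * v i)) →
      ∃ s : MvPolynomial V F, IsWeightedHomogeneous a s e ∧ eval v s = 0 ∧
        ∑ i, eval v (pderiv i s) * u i ≠ 0

/-- **Fujita's conjectures for weighted complete intersections with arbitrary weights.**  Let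
`A_l = O(k_l)`, `k_l ≥ 1`, be `m` ample line bundles on `X`.  If `m ≥ n + 1` then the number
`e = ∑ d_j + ∑ k_l - ∑ a_i` is not negative and `K_X + A_1 + … + A_m = O(e)` is globally generated; if
`m ≥ n + 2` then it is very ample. -/
theorem result (a : V → ℕ) (d : κ → ℕ) (f : κ → MvPolynomial V F) (n : ℕ)
    (hX : InSmoothLocus a d f n) (m : ℕ) (hm : n + 1 ≤ m) (k : Fin m → ℕ) (hk : ∀ l, 1 ≤ k l) :
    ∑ i, a i ≤ ∑ j, d j + ∑ l, k l ∧ Free a f (∑ j, d j + ∑ l, k l - ∑ i, a i) ∧
      (n + 2 ≤ m → VeryAmple a f (∑ j, d j + ∑ l, k l - ∑ i, a i)) := by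
  classical
  obtain ⟨J, hJ, hav⟩ := hX.avoids
  have h1 : m ≤ ∑ l, k l := by
    calc m = ∑ _l : Fin m, 1 := by simp
      _ ≤ ∑ l, k l := Finset.sum_le_sum fun l _ => hk l
  obtain ⟨e, he, φ, D, H, h2⟩ := Pool.Agent.U479.VB.exists_data a hX.weight_pos d
    hX.degree_pos f hX.homogeneous J hJ hav n hX.dimension (∑ l, k l) (hm.trans h1)
  have he' : ∑ j, d j + ∑ l, k l - ∑ i, a i = e := by omega
  refine ⟨by omega, ?_, fun hm2 => ?_⟩
  · rw [he']
    exact fun v hv hfv => Pool.Agent.U479.VB.base H v hv hfv
  rw [he']
  have h3 := h2 (hm2.trans h1)
  refine ⟨fun v hv hfv => Pool.Agent.U479.VB.base H v hv hfv, ?_, ?_⟩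
  · intro v w hv hw hfv hfw hne
    by_contra hcon
    push Not at hcon
    exact hne (Pool.Agent.U479.VB.points H h3 v w hv hw hfv hfw hcon)
  · intro v u hv hfv hfu hne
    by_contra hcon
    push Not at hcon
    exact hne (Pool.Agent.U479.VB.tangents H h3 v u hv hfv hfu hcon)

end Pool.Agent.Results.MP_e09b14_ag.ArbitraryWeights
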