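import Pool.Agent.U479.FJ.Core
import Pool.Agent.U479.VA.Final
import Pool.Agent.Results.MP_e09b14_ag.CoprimeCodimensionTwo

set_option autoImplicit false

/-!
# Fujita's very ampleness conjecture in weighted projective spaces with at most three weights larger
than one

Let `X = V(f_1, …, f_c)` be a complete intersection of dimension `n` and of any codimension `c ≥ 2` in the
smooth locus of a weighted projective space `P(1, …, 1, a, b, c')`, where `a`, `b`, `c'` are pairwise
coprime.  Then `K_X + A_1 + … + A_m`, `m ≥ n + 2`, is very ample for all `A_l = O(k_l)`, `k_l ≥ 1`.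
There is no condition on the equations besides that `X` does not contain the singular points of the
weighted projective space.

The proof.  If the three singular points are avoided by three different equations then the
relations between the weights given by these equations are used
(`Pool.Agent.U479.VA`, see `ArbitraryWeights`).  Otherwise two equations avoid all singular points, and
the starting result `CoprimeCodimensionTwo` applies.
-/

namespace Pool.Agent.Results.MP_e09b14_ag.ThreeWeights

open MvPolynomial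

/-- `X = V(f_j)` is defined by `c` weighted homogeneous equations `f_j` of degrees `d_j ≥ 1` in the
weighted projective space `P(a)` with `n + c + 1` coordinates (so that `n = dim X` if `X` is a complete
intersection) of pairwise coprime weights `a_i ≥ 1`, at most three of them larger than one, and `X`
does not contain the singular points of `P(a)`, the coordinate points with `a_i > 1`. -/
structure InSmoothLocus {n c : ℕ} (a : Fin (n + c + 1) → ℕ) (d : Fin c → ℕ)
    (f : Fin c → MvPolynomial (Fin (n + c + 1)) ℂ) : Prop where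
  weight_pos : ∀ i, 1 ≤ a i
  coprime : Pairwise fun i l => Nat.Coprime (a i) (a l)
  three : (Finset.univ.filter fun i => 1 < a i).card ≤ 3
  degree_pos : ∀ j, 1 ≤ d j
  homogeneous : ∀ j, IsWeightedHomogeneous a (f j) (d j)
  avoids : ∀ i, 1 < a i → ∃ j, eval (Pi.single i 1) (f j) ≠ 0

/-- The forms of degree `e` have no base point on `X = V(f_j)`, separate points and separate
tangent vectors of `X`: `O(e)` is very ample on `X`. -/
structure VeryAmple {n c : ℕ} (a : Fin (n + c + 1) → ℕ)
    (f : Fin c → MvPolynomial (Fin (n + c + 1)) ℂ) (e : ℕ) : Prop where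
  no_base_points : ∀ v : Fin (n + c + 1) → ℂ, v ≠ 0 → (∀ j, eval v (f j) = 0) →
    ∃ s : MvPolynomial (Fin (n + c + 1)) ℂ, IsWeightedHomogeneous a s e ∧ eval v s ≠ 0
  points : ∀ v w : Fin (n + c + 1) → ℂ, v ≠ 0 → w ≠ 0 → (∀ j, eval v (f j) = 0) →
    (∀ j, eval w (f j) = 0) → (¬ ∃ t : ℂ, t ≠ 0 ∧ ∀ i, w i = t ^ a i * v i) →
      ∃ s : MvPolynomial (Fin (n + c + 1)) ℂ, IsWeightedHomogeneous a s e ∧ eval v s = 0 ∧
        eval w s ≠ 0
  tangents : ∀ v u : Fin (n + c + 1) → ℂ, v ≠ 0 → (∀ j, eval v (f j) = 0) →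
    (∀ j, ∑ i, eval v (pderiv i (f j)) * u i = 0) →
    (¬ ∃ τ : ℂ, ∀ i, u i = τ * (a i * v i)) →
      ∃ s : MvPolynomial (Fin (n + c + 1)) ℂ, IsWeightedHomogeneous a s e ∧ eval v s = 0 ∧
        ∑ i, eval v (pderiv i s) * u i ≠ 0

/-- a point avoided by an equation -/
theorem ne_zero_of_coord {n c : ℕ} {a : Fin (n + c + 1) → ℕ} {d : ℕ}
    {f : MvPolynomial (Fin (n + c + 1)) ℂ} (hf : IsWeightedHomogeneous a f d)
    {i : Fin (n + c + 1)} (ha : 1 ≤ a i) (h : eval (Pi.single i 1) f ≠ 0)
    {v : Fin (n + c + 1) → ℂ} (hv : v i ≠ 0) (hv0 : ∀ l, l ≠ i → v l = 0) : eval v f ≠ 0 := by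
  intro h0
  obtain ⟨D, hD, hc⟩ := Pool.Agent.U479.FJ.coord hf h
  obtain ⟨m, h4, h5, h6⟩ := Pool.Agent.U479.FJ.other h0 hc hv
  have h7 : ∀ l, l ≠ i → m l = 0 := fun l hl => by
    by_contra hml
    exact h6 l hml (hv0 l hl)
  apply h5
  have h8 := hf h4
  rw [Pool.Agent.U479.FJ.weight_eq, Finset.sum_eq_single i (fun l _ hl => by rw [h7 l hl, zero_mul])
    (fun h => absurd (Finset.mem_univ i) h), ← hD] at h8
  have h9 : m i = D := Nat.eq_of_mul_eq_mul_right (by omega) h8
  ext l
  by_cases hl : l = i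
  · subst hl
    rw [Finsupp.single_eq_same, h9]
  · rw [h7 l hl, Finsupp.single_apply, if_neg (Ne.symm hl)]

/-- **Fujita's very ampleness conjecture for complete intersections of every codimension `c ≥ 2` in
the smooth locus of weighted projective spaces with pairwise coprime weights, at most three of
them larger than one.**  Let `A_l = O(k_l)`, `k_l ≥ 1`, be `m ≥ n + 2` ample line bundles on `X`.  The number
`e = ∑ d_j + ∑ k_l - ∑ a_i` is not negative, and `K_X + A_1 + … + A_m = O(e)` is very ample. -/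
theorem result (n c : ℕ) (hc : 2 ≤ c) (a : Fin (n + c + 1) → ℕ) (d : Fin c → ℕ)
    (f : Fin c → MvPolynomial (Fin (n + c + 1)) ℂ) (hX : InSmoothLocus a d f) (m : ℕ)
    (hm : n + 2 ≤ m) (k : Fin m → ℕ) (hk : ∀ l, 1 ≤ k l) :
    ∑ i, a i ≤ ∑ j, d j + ∑ l, k l ∧ VeryAmple a f (∑ j, d j + ∑ l, k l - ∑ i, a i) := by
  classical
  have hK : n + 2 ≤ ∑ l, k l := by
    have h1 : m ≤ ∑ l, k l := by
      calc m = ∑ _l : Fin m, 1 := by simp
        _ ≤ ∑ l, k l := Finset.sum_le_sum fun l _ => hk l
    exact hm.trans h1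
  have hex : ∀ i : {i // 1 < a i}, ∃ j, eval (Pi.single i.1 1) (f j) ≠ 0 := fun i =>
    hX.avoids i.1 i.2
  choose J hJ using hex
  by_cases hinj : Function.Injective J
  · obtain ⟨e, he, φ, D, H⟩ := Pool.Agent.U479.VA.exists_data a hX.weight_pos hX.coprime d
      hX.degree_pos f hX.homogeneous J hinj hJ n (by simp) (∑ l, k l) hK
    have he' : ∑ j, d j + ∑ l, k l - ∑ i, a i = e := by omega
    refine ⟨by omega, ?_⟩
    rw [he']
    refine ⟨fun v hv hfv => Pool.Agent.U479.VA.base H v hv hfv, ?_, ?_⟩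
    · intro v w hv hw hfv hfw hne
      by_contra hcon
      push Not at hcon
      exact hne (Pool.Agent.U479.VA.points H v w hv hw hfv hfw hcon)
    · intro v u hv hfv hfu hne
      by_contra hcon
      push Not at hcon
      exact hne (Pool.Agent.U479.VA.tangents H v u hv hfv hfu hcon)
  -- two equations suffice
  obtain ⟨j₀, j₁, hj, hcov⟩ : ∃ j₀ j₁ : Fin c, j₀ ≠ j₁ ∧ ∀ i, J i = j₀ ∨ J i = j₁ := by
    unfold Function.Injective at hinj
    push Not at hinj
    obtain ⟨i, l, hil, hne⟩ := hinj
    by_cases hall : ∀ q, J q = J i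
    · obtain ⟨j₁, hj₁⟩ : ∃ j₁ : Fin c, j₁ ≠ J i := by
        haveI : Nontrivial (Fin c) := Fin.nontrivial_iff_two_le.2 hc
        exact exists_ne (J i)
      exact ⟨J i, j₁, hj₁.symm, fun q => Or.inl (hall q)⟩
    · push Not at hall
      obtain ⟨q, hq⟩ := hall
      refine ⟨J i, J q, hq.symm, fun r => ?_⟩
      by_contra hcon
      push Not at hcon
      have h1 : ({i.1, l.1, q.1, r.1} : Finset (Fin (n + c + 1))) ⊆
          Finset.univ.filter fun i => 1 < a i := by
        intro x hx
        simp only [Finset.mem_insert, Finset.mem_singleton] at hx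
        rw [Finset.mem_filter]
        refine ⟨Finset.mem_univ _, ?_⟩
        rcases hx with rfl | rfl | rfl | rfl
        · exact i.2
        · exact l.2
        · exact q.2
        · exact r.2
      have h2 : ({i.1, l.1, q.1, r.1} : Finset (Fin (n + c + 1))).card = 4 := by
        have e1 : i.1 ≠ l.1 := fun h => hne (Subtype.ext h)
        have e2 : i.1 ≠ q.1 := fun h => hq (by rw [Subtype.ext h])
        have e3 : i.1 ≠ r.1 := fun h => hcon.1 (by rw [Subtype.ext h])
        have e4 : l.1 ≠ q.1 := fun h => hq (by rw [hil, Subtype.ext h])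
        have e5 : l.1 ≠ r.1 := fun h => hcon.1 (by rw [hil, Subtype.ext h])
        have e6 : q.1 ≠ r.1 := fun h => hcon.2 (by rw [Subtype.ext h])
        rw [Finset.card_insert_of_notMem (by simp [e1, e2, e3]),
          Finset.card_insert_of_notMem (by simp [e4, e5]),
          Finset.card_insert_of_notMem (by simp [e6]), Finset.card_singleton]
      have h3 := Finset.card_le_card h1
      have h4 := hX.three
      omega
  have hgcd : ∀ v : Fin (n + c + 1) → ℂ, v ≠ 0 → eval v (f j₀) = 0 → eval v (f j₁) = 0 →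
      ∀ g : ℕ, (∀ i, v i ≠ 0 → g ∣ a i) → g = 1 := by
    intro v hv h0 h1 g hg
    obtain ⟨i, hi⟩ := Function.ne_iff.1 hv
    by_cases h2 : ∃ l, l ≠ i ∧ v l ≠ 0
    · obtain ⟨l, hli, hl⟩ := h2
      have h3 : Nat.Coprime (a l) (a i) := hX.coprime hli
      have h4 : g ∣ Nat.gcd (a l) (a i) := Nat.dvd_gcd (hg l hl) (hg i hi)
      rw [h3] at h4
      exact Nat.dvd_one.1 h4
    push Not at h2
    by_cases hai : 1 < a i
    swap
    · have h3 : a i = 1 := by have := hX.weight_pos i; omega
      have h4 := hg i hi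
      rw [h3] at h4
      exact Nat.dvd_one.1 h4
    exfalso
    have h3 := ne_zero_of_coord (hX.homogeneous _) (hX.weight_pos i) (hJ ⟨i, hai⟩) hi h2
    rcases hcov ⟨i, hai⟩ with h | h
    · rw [h] at h3; exact h3 h0
    · rw [h] at h3; exact h3 h1
  have hsum : ∑ i, a i ≤ ∑ j, d j + ∑ l, k l :=
    (Pool.Agent.U479.FJ.core a hX.weight_pos hX.coprime d f hX.degree_pos hX.homogeneous hX.avoids
      n (by simp) (∑ l, k l) (by omega)).1
  refine ⟨hsum, ?_⟩
  obtain ⟨h1, h2, h3⟩ := CoprimeCodimensionTwo.result n c a hX.weight_pos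
    (fun i i' h => hX.coprime h) d hX.degree_pos f hX.homogeneous j₀ j₁ hj hgcd 1 (∑ l, k l)
    (∑ j, d j + ∑ l, k l - ∑ i, a i) le_rfl hK (by omega)
  exact ⟨h1, h2, h3⟩

end Pool.Agent.Results.MP_e09b14_ag.ThreeWeights
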