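import Pool.Agent.U660.FT.Proj

/-!
# Fujita's very ampleness conjecture for toroidal modifications

Let `T` be a projective manifold, `P` a group of line bundles on `T`, and let `D_1, ..., D_r` be smooth
divisors on `T` with a common point, crossing normally, whose classes are in `P`. Let `X → T` be a
toroidal modification of a toric bundle over an abelian cover of `T` branched along the `D_t`: there
are a lattice `N` of rank `n`, linearly independent linear forms `x_1, ..., x_r` on `N`, a regular fan `S`
with support `{x_1 ≥ 0, ..., x_r ≥ 0}`, with rays generated by `s_i ∈ N`, and a homomorphism `γ` from the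
dual lattice to `P` such that `D_t` is the divisor of a section `F_t` of `γ(x_t)`. The torsor over `X` is
given by the equations

  `∏ y_i ^ (x_t(s_i)) = F_t` (`t = 1, ..., r`),

where for some cone `σ` of `S` all `y_i` with `i` not in `σ` are units. So `X` is smooth of dimension
`dim T + n - r`. Examples:
* `n = r`, `S` the orthant: abelian covers of `T` branched along the `D_t` (cyclic covers for `r = 1`);
* `N = ℤ^r`, `x_t` the coordinates, `S` a subdivision of the orthant: blow-ups of `T` along
  intersections of the `D_t`, and repeated blow-ups of such centres;
* `r = 0`: toric bundles over `T`;
* all combinations of these.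

A line bundle on `X` is given by `L ∈ P` and by integers `a_i`, the coefficients of the divisors
`D_i : y_i = 0`, and `K_X = K_T + D_1 + ... + D_r - ∑ D_i`. Sections are products of a section on `T` and
a monomial in the `y_i`. A line bundle is very ample if the sections of this form give an injective map
on the points with values in every local `ℂ`-algebra (a proper map which is injective on these points
is a closed embedding; if these sections give a closed embedding, so do all sections).

The result: suppose that all big line bundles in `P` are ample (for example `P = ℤ H`, `H` ample, on an
arbitrary `T`; or `T` is a product of such varieties, a homogeneous variety or an abelian variety). If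
`K_T + A_1 + ... + A_b` is very ample for all ample `A_1, ..., A_b` in `P`, then
`K_X + A_1 + ... + A_m` is very ample for all `m ≥ max(b, k + 2)` and all ample `A_1, ..., A_m` on `X`,
where `k ≤ n` is the largest number of facets of a cone of `S` which are not contained in the boundary
of the support of `S` (`k = 0` for abelian covers).

Since `D_1, ..., D_r` have a common point, `r ≤ dim T` and `n ≤ dim X`. So Fujita's very ampleness
conjecture holds for `X` (and these line bundles) if `b ≤ dim X + 2` is possible. This is the case, for
instance, if `T` is a product of projective spaces, or of curves and surfaces as above (Reider; not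
formalised), or an abelian variety (`b = 3`), with `dim X` arbitrary.

The second part is unconditional: here `T` is a closed subvariety of a product of projective spaces, `P`
is the group of the line bundles `O(L)`, and `K_T = O(κ)` (for instance a product of projective
spaces or a complete intersection in it).
-/

set_option autoImplicit false

namespace Pool.Agent.Results.MP_e09b14_ag.ToroidalModifications

open Pool.Agent.U660.FT

/-- **Very ampleness of adjoint line bundles on toroidal modifications.**

(1) Let `T` be irreducible such that all big line bundles in the group `P` are ample, and let
`κ + A_1 + ... + A_b` be very ample for all ample line bundles `A_1, ..., A_b` in `P`, where `κ` is `K_T`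
or any other element of `P`. Then `K_X + A_1 + ... + A_m` is very ample for all `m ≥ max(b, k + 2)` and all
ample line bundles `A_1, ..., A_m` on `X`.

(2) Let `T` be an irreducible closed subset of a product of projective spaces and `κ` an element of
`ℤ^h`. Then `K_X + A_1 + ... + A_m` is very ample for all `m ≥ k + 2` with `m ≥ 1 - κ_t` for all `t`. -/
theorem result {N ι : Type} [AddCommGroup N] [Fintype ι] [DecidableEq ι] {r n : ℕ} :
    (∀ {P : Type} [AddCommGroup P] (T : Var P) (D : Datum T N ι r n) (κ : P) (b k m : ℕ),
      T.Irred → (∀ B, T.Big B → T.Ample B) → 1 ≤ b → T.Adjoint T.VA κ b → D.AtMost k →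
        b ≤ m → k + 2 ≤ m → D.X.Adjoint D.X.VA (D.K κ) m) ∧
    (∀ {h : ℕ} {d : Fin h → ℕ} (C : Closed d) (D : Datum C.T N ι r n) (κ : Fin h → ℤ) (k m : ℕ),
      C.T.Irred → D.AtMost k → k + 2 ≤ m → (∀ t, 1 - κ t ≤ m) →
        D.X.Adjoint D.X.VA (D.K κ) m) := by
  refine ⟨?_, ?_⟩
  · intro P _ T D κ b k m hT hE hb h hk hbm hkm
    exact D.va hT hE hb hbm hk hkm h
  · intro h d C D κ k m hT hk hkm hκ
    obtain ⟨p, -⟩ := D.meet
    exact D.va hT Closed.big_ample (show 1 ≤ m by omega) le_rfl hk hkm (Closed.adjoint_va p hκ)

end Pool.Agent.Results.MP_e09b14_ag.ToroidalModifications
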